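import Mathlib
import Pool.Agent.Helper973_TwoGen.T3

/-!
Adapted triples in finite abelian groups.
-/

set_option autoImplicit false

namespace Pool.Agent.Helper973_Three

open Pool.Agent.Helper973_TwoGen

/-- additive form of `adapted` -/
theorem adapted2 {M : Type*} [AddCommGroup M] [Finite M] (X Y : M)
    (h : addOrderOf Y ∣ addOrderOf X) :
    ∃ c : ℤ, ∀ i j : ℤ, i • X + j • (Y - c • X) = 0 → i • X = 0 := by
  obtain ⟨c, hc⟩ := adapted (A := Multiplicative M) (Multiplicative.ofAdd X)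
    (Multiplicative.ofAdd Y) (by
      rw [orderOf_ofAdd_eq_addOrderOf, orderOf_ofAdd_eq_addOrderOf]; exact h)
  refine ⟨c, fun i j hij => ?_⟩
  have h1 := hc i j (by
    apply Multiplicative.toAdd.injective
    change i • X + j • (Y + (-c) • X) = 0
    rw [neg_smul, ← sub_eq_add_neg]
    exact hij)
  have h2 := congrArg Multiplicative.toAdd h1
  exact h2

theorem adapted3 {M : Type*} [AddCommGroup M] [Finite M] (X Y Z : M)
    (hY : addOrderOf Y ∣ addOrderOf X) (hZ : addOrderOf Z ∣ addOrderOf X) :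
    ∃ c d : ℤ, ∀ i j k : ℤ, i • X + j • (Y - c • X) + k • (Z - d • X) = 0 → i • X = 0 := by
  obtain ⟨c, hc⟩ := adapted2 X Y hY
  set Y' := Y - c • X with hY'
  set N := AddSubgroup.zmultiples Y' with hN
  have hmem : ∀ i : ℤ, i • X ∈ N → i • X = 0 := by
    rintro i ⟨j, hj⟩
    have hj' : j • Y' = i • X := hj
    apply hc i (-j)
    rw [neg_smul, hj', add_neg_cancel]
  have hmk : ∀ (i : ℤ) (x : M), ((i • x : M) : M ⧸ N) = i • (x : M ⧸ N) := fun i x => rfl
  have hX : addOrderOf X ∣ addOrderOf (X : M ⧸ N) := by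
    rw [addOrderOf_dvd_iff_nsmul_eq_zero]
    have h1 : addOrderOf (X : M ⧸ N) • (X : M ⧸ N) = 0 := addOrderOf_nsmul_eq_zero _
    have h2 : ((addOrderOf (X : M ⧸ N) : ℤ) • X) ∈ N := by
      rw [← QuotientAddGroup.eq_zero_iff, hmk, natCast_zsmul]
      exact h1
    have h3 := hmem _ h2
    rwa [natCast_zsmul] at h3
  have hZ' : addOrderOf (Z : M ⧸ N) ∣ addOrderOf (X : M ⧸ N) := by
    refine dvd_trans ?_ (hZ.trans hX)
    rw [addOrderOf_dvd_iff_nsmul_eq_zero]
    have h1 : ((addOrderOf Z • Z : M) : M ⧸ N) = addOrderOf Z • (Z : M ⧸ N) := rfl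
    rw [← h1, addOrderOf_nsmul_eq_zero]
    rfl
  obtain ⟨d, hd⟩ := adapted2 (X : M ⧸ N) (Z : M ⧸ N) hZ'
  refine ⟨c, d, fun i j k h => hmem i ?_⟩
  have h1 : ((i • X + j • Y' + k • (Z - d • X) : M) : M ⧸ N) = 0 := by
    rw [h]; rfl
  have h2 : ((j • Y' : M) : M ⧸ N) = 0 :=
    (QuotientAddGroup.eq_zero_iff _).2 (N.zsmul_mem (AddSubgroup.mem_zmultiples Y') j)
  have h3 : ((i • X + j • Y' + k • (Z - d • X) : M) : M ⧸ N)
      = i • (X : M ⧸ N) + ((j • Y' : M) : M ⧸ N) + k • ((Z : M ⧸ N) - d • (X : M ⧸ N)) := rfl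
  rw [h3, h2, add_zero] at h1
  have h4 := hd i k h1
  rw [← QuotientAddGroup.eq_zero_iff, hmk]
  exact h4

/-- independence of three elements -/
def Ind {M : Type*} [AddCommGroup M] (a b c : M) : Prop :=
  ∀ i j k : ℤ, i • a + j • b + k • c = 0 → i • a = 0 ∧ j • b = 0 ∧ k • c = 0

end Pool.Agent.Helper973_Three
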