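import Mathlib
import Pool.Agent.Helper973_OutC.Base
import Pool.Agent.Helper973_TwoGen.T3
import Pool.Agent.Helper973_Three.Abel

/-!
Class-preserving automorphisms of 3-generated `p`-groups of class at most 2 are inner.
-/

set_option autoImplicit false

namespace Pool.Agent.Helper973_Three

open Subgroup Pool.Agent.Helper973_OutC Pool.Agent.Helper973_TwoGen
open scoped commutatorElement

variable {G : Type*} [Group G]

theorem central2 (h2 : gam G 2 = ⊥) {n : G} (hn : n ∈ gam G 1) (g : G) : n * g = g * n := by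
  have := comm_mem_left hn g
  rw [show 1 + 1 = 2 from rfl, h2, Subgroup.mem_bot, commutatorElement_eq_one_iff_mul_comm] at this
  exact this

theorem comm_mem1 (a b : G) : ⁅a, b⁆ ∈ gam G 1 := comm_mem_left (n := 0) (Subgroup.mem_top a) b

instance instAddCommCenter (G : Type*) [Group G] : AddCommGroup (Additive (Subgroup.center G)) :=
  letI := cgrp G
  Additive.addCommGroup

/-- the commutator as an element of the center, written additively -/
def B (h2 : gam G 2 = ⊥) (a b : G) : Additive (Subgroup.center G) :=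
  Additive.ofMul ⟨⁅a, b⁆, Subgroup.mem_center_iff.2 fun g => (central2 h2 (comm_mem1 a b) g).symm⟩

variable (h2 : gam G 2 = ⊥)

theorem B_eq {a b c d : G} : B h2 a b = B h2 c d ↔ ⁅a, b⁆ = ⁅c, d⁆ := by
  constructor
  · intro h
    exact congrArg (fun t : Additive (Subgroup.center G) => ((Additive.toMul t : _) : G)) h
  · intro h
    apply Additive.toMul.injective
    exact Subtype.ext h

theorem B_left (a b c : G) : B h2 (a * b) c = B h2 a c + B h2 b c := by
  apply Additive.toMul.injective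
  apply Subtype.ext
  change ⁅a * b, c⁆ = ⁅a, c⁆ * ⁅b, c⁆
  have h1 := central2 h2 (comm_mem1 b c) a
  have e : ⁅a * b, c⁆ = a * ⁅b, c⁆ * a⁻¹ * ⁅a, c⁆ := by simp only [commutatorElement_def]; group
  rw [e, ← h1, mul_inv_cancel_right, central2 h2 (comm_mem1 b c)]

theorem B_symm (a b : G) : B h2 a b = - B h2 b a := by
  apply Additive.toMul.injective
  apply Subtype.ext
  change ⁅a, b⁆ = ⁅b, a⁆⁻¹
  rw [commutatorElement_inv]

theorem B_right (a b c : G) : B h2 a (b * c) = B h2 a b + B h2 a c := by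
  rw [B_symm, B_left, B_symm h2 a b, B_symm h2 a c, neg_add]

theorem B_self (a : G) : B h2 a a = 0 := by
  apply Additive.toMul.injective
  apply Subtype.ext
  change ⁅a, a⁆ = 1
  rw [commutatorElement_self]

/-- the commutator map in the first variable -/
def BL (c : G) : G →* Multiplicative (Additive (Subgroup.center G)) where
  toFun a := Multiplicative.ofAdd (B h2 a c)
  map_one' := by
    have h := B_left h2 1 1 c
    rw [mul_one] at h
    have h3 : B h2 1 c = 0 := by simpa using h
    rw [h3]; rfl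
  map_mul' a b := by rw [B_left]; rfl

theorem B_zpow_left (a c : G) (n : ℤ) : B h2 (a ^ n) c = n • B h2 a c := by
  have h := map_zpow (BL h2 c) a n
  exact h

theorem B_zpow_right (a c : G) (n : ℤ) : B h2 a (c ^ n) = n • B h2 a c := by
  rw [B_symm, B_zpow_left, B_symm h2 a c, smul_neg]

theorem B_gam {v : G} (hv : v ∈ gam G 1) (c : G) : B h2 v c = 0 := by
  apply Additive.toMul.injective
  apply Subtype.ext
  change ⁅v, c⁆ = 1
  rw [commutatorElement_eq_one_iff_mul_comm]
  exact central2 h2 hv c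

theorem decomp3 {x y z : G} (hxyz : closure {x, y, z} = ⊤) (h : G) :
    ∃ i j k : ℤ, ∃ v ∈ gam G 1, h = x ^ i * y ^ j * z ^ k * v := by
  have h1 : gam G 1 = commutator G := Subgroup.top_lowerCentralSeries_one
  have h3 : (closure {x, y, z}).map (Abelianization.of : G →* Abelianization G)
      = closure {Abelianization.of x, Abelianization.of y, Abelianization.of z} := by
    rw [MonoidHom.map_closure, Set.image_insert_eq, Set.image_pair]
  have h4 : Abelianization.of h ∈ closure {Abelianization.of x, Abelianization.of y,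
      Abelianization.of z} := by
    rw [← h3, hxyz]
    exact ⟨h, Subgroup.mem_top h, rfl⟩
  rw [Set.insert_eq, Subgroup.closure_union, Subgroup.mem_sup] at h4
  obtain ⟨a, ha, b, hb, hab⟩ := h4
  obtain ⟨i, rfl⟩ := Subgroup.mem_closure_singleton.1 ha
  obtain ⟨j, k, rfl⟩ := Subgroup.mem_closure_pair.1 hb
  refine ⟨i, j, k, (x ^ i * y ^ j * z ^ k)⁻¹ * h, ?_, by group⟩
  rw [h1]
  have h5 : (QuotientGroup.mk (x ^ i * y ^ j * z ^ k) : G ⧸ commutator G) = QuotientGroup.mk h := by
    rw [← mul_assoc] at hab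
    exact hab
  exact QuotientGroup.eq.1 h5

theorem ext_gen3 {x y z : G} (hxyz : closure {x, y, z} = ⊤) {α : MulAut G} {g : G}
    (hx : α x = g * x * g⁻¹) (hy : α y = g * y * g⁻¹) (hz : α z = g * z * g⁻¹) (t : G) :
    α t = g * t * g⁻¹ := by
  have h1 : (α.toMonoidHom : G →* G) = (MulAut.conj g).toMonoidHom := by
    refine MonoidHom.eq_of_eqOn_dense hxyz ?_
    rintro w (rfl | rfl | rfl)
    · exact hx
    · exact hy
    · exact hz
  have h2 := DFunLike.congr_fun h1 t
  exact h2

/-- values of the commutator map on a normal form -/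
theorem B_form (x y z v t : G) (i j k : ℤ) (hv : v ∈ gam G 1) :
    B h2 (x ^ i * y ^ j * z ^ k * v) t = i • B h2 x t + j • B h2 y t + k • B h2 z t := by
  rw [B_left, B_left, B_left, B_zpow_left, B_zpow_left, B_zpow_left, B_gam h2 hv, add_zero]

/-- the displacement of a class-preserving automorphism -/
theorem exists_D {α : MulAut G} (hα : α ∈ AutC G) :
    ∃ D : G → Additive (Subgroup.center G), (∀ s t, D (s * t) = D s + D t) ∧
      (∀ t, ∃ w, D t = B h2 w t) ∧
      (∀ g t, D t = B h2 g t → α t = g * t * g⁻¹) := by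
  have hm : ∀ t, α t * t⁻¹ ∈ gam G 1 := fun t => deep_of_autC α hα 0 t (by simp [gam])
  refine ⟨fun t => Additive.ofMul ⟨α t * t⁻¹,
    Subgroup.mem_center_iff.2 fun g => (central2 h2 (hm t) g).symm⟩, ?_, ?_, ?_⟩
  · intro s t
    apply Additive.toMul.injective
    apply Subtype.ext
    change α (s * t) * (s * t)⁻¹ = (α s * s⁻¹) * (α t * t⁻¹)
    have h1 := central2 h2 (hm t) s⁻¹
    rw [map_mul, mul_inv_rev]
    calc α s * α t * (t⁻¹ * s⁻¹) = α s * ((α t * t⁻¹) * s⁻¹) := by group
      _ = α s * (s⁻¹ * (α t * t⁻¹)) := by rw [h1]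
      _ = _ := by group
  · intro t
    obtain ⟨w, hw⟩ := isConj_iff.1 (hα t)
    refine ⟨w, ?_⟩
    apply Additive.toMul.injective
    apply Subtype.ext
    change α t * t⁻¹ = ⁅w, t⁆
    rw [← hw, commutatorElement_def]
  · intro g t h
    have h1 : α t * t⁻¹ = ⁅g, t⁆ :=
      congrArg (fun t : Additive (Subgroup.center G) => ((Additive.toMul t : _) : G)) h
    rw [commutatorElement_def] at h1
    calc α t = (α t * t⁻¹) * t := by group
      _ = g * t * g⁻¹ := by rw [h1]; group

/-- 3-generated groups of class at most 2 with independent commutators -/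
theorem core_ind {x y z : G} (hxyz : closure {x, y, z} = ⊤)
    (hind : Ind (B h2 y z) (B h2 z x) (B h2 x y)) {α : MulAut G} (hα : α ∈ AutC G) :
    ∃ g : G, ∀ t, α t = g * t * g⁻¹ := by
  obtain ⟨D, hD, hloc, hout⟩ := exists_D h2 hα
  set e1 := B h2 y z with he1
  set e2 := B h2 z x with he2
  set e3 := B h2 x y with he3
  have f1 : B h2 z y = - e1 := B_symm h2 z y
  have f2 : B h2 x z = - e2 := B_symm h2 x z
  have f3 : B h2 y x = - e3 := B_symm h2 y x
  have sim : ∀ t, ∃ i j k : ℤ, D t = i • B h2 x t + j • B h2 y t + k • B h2 z t := by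
    intro t
    obtain ⟨w, hw⟩ := hloc t
    obtain ⟨i, j, k, v, hv, rfl⟩ := decomp3 hxyz w
    exact ⟨i, j, k, by rw [hw, B_form h2 x y z v t i j k hv]⟩
  obtain ⟨i1, j1, k1, w1⟩ := sim x
  obtain ⟨i2, j2, k2, w2⟩ := sim y
  obtain ⟨i3, j3, k3, w3⟩ := sim z
  obtain ⟨a1, b1, c1, u1⟩ := sim (x * y)
  obtain ⟨a2, b2, c2, u2⟩ := sim (y * z)
  obtain ⟨a3, b3, c3, u3⟩ := sim (x * z)
  rw [B_self, f3, ← he2] at w1
  rw [← he3, B_self, f1] at w2
  rw [f2, ← he1, B_self] at w3
  rw [hD, w1, w2, B_right, B_right, B_right, B_self, B_self, f3, f1, ← he2, ← he3] at u1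
  rw [hD, w2, w3, B_right, B_right, B_right, B_self, B_self, f1, f2, ← he1, ← he3] at u2
  rw [hD, w1, w3, B_right, B_right, B_right, B_self, B_self, f3, f2, ← he1, ← he2] at u3
  obtain ⟨p1, p2, -⟩ := hind (c1 - k2) (k1 - c1) (i2 - j1 - a1 + b1) (by
    have := sub_eq_zero.2 u1
    rw [← this]
    module)
  obtain ⟨-, q2, q3⟩ := hind (j3 - k2 + c2 - b2) (a2 - i3) (i2 - a2) (by
    have := sub_eq_zero.2 u2
    rw [← this]
    module)
  obtain ⟨r1, -, r3⟩ := hind (j3 - b3) (k1 - i3 - c3 + a3) (b3 - j1) (by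
    have := sub_eq_zero.2 u3
    rw [← this]
    module)
  refine ⟨x ^ a2 * y ^ b3 * z ^ c1 * 1, ext_gen3 hxyz (hout _ _ ?_) (hout _ _ ?_) (hout _ _ ?_)⟩
  · rw [B_form h2 x y z 1 x a2 b3 c1 (Subgroup.one_mem _), B_self, f3, ← he2, w1]
    rw [← sub_eq_zero]
    have h : (k1 - c1) • e2 + (b3 - j1) • e3 = 0 := by
      rw [p2, r3, add_zero]
    refine Eq.trans ?_ h
    module
  · rw [B_form h2 x y z 1 y a2 b3 c1 (Subgroup.one_mem _), B_self, f1, ← he3, w2]
    rw [← sub_eq_zero]
    have h : (i2 - a2) • e3 + (c1 - k2) • e1 = 0 := by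
      rw [q3, p1, add_zero]
    refine Eq.trans ?_ h
    module
  · rw [B_form h2 x y z 1 z a2 b3 c1 (Subgroup.one_mem _), B_self, f2, ← he1, w3]
    rw [← sub_eq_zero]
    have h : (j3 - b3) • e1 + (a2 - i3) • e2 = 0 := by
      rw [r1, q2, add_zero]
    refine Eq.trans ?_ h
    module

end Pool.Agent.Helper973_Three
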