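import Mathlib
import Pool.Agent.Helper973_OutC.Base
import Pool.Agent.Helper973_TwoGen.Deep
import Pool.Agent.Helper973_TwoGen.Main
import Pool.Agent.Helper973_Three.Class2

/-!
Groups generated by elements whose commutators are independent modulo `γ_3(G)`.
-/

set_option autoImplicit false

namespace Pool.Agent.Helper973_Three

open Subgroup Pool.Agent.Helper973_OutC Pool.Agent.Helper973_TwoGen
open scoped commutatorElement

variable {G : Type*} [Group G]

theorem map_ofFn_add {M : Type*} [AddCommGroup M] (f : G → M) (hf : ∀ s t, f (s * t) = f s + f t)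
    {d : ℕ} (g : Fin d → G) : f (List.ofFn g).prod = ∑ i, f (g i) := by
  have h1 : f 1 = 0 := by
    have := hf 1 1
    rw [mul_one] at this
    simpa using this
  have h2 : ∀ l : List G, f l.prod = (l.map f).sum := by
    intro l
    induction l with
    | nil => rw [List.prod_nil, List.map_nil, List.sum_nil, h1]
    | cons b l ih => rw [List.prod_cons, hf, ih, List.map_cons, List.sum_cons]
  rw [h2, List.map_ofFn, List.sum_ofFn]
  rfl

/-- every element is a product of powers of the generators modulo `γ_2` -/
theorem decomp_fin {d : ℕ} {x : Fin d → G} (hx : closure (Set.range x) = ⊤) (h : G) :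
    ∃ n : Fin d → ℤ, ∃ v ∈ gam G 1, h = (List.ofFn fun i => x i ^ n i).prod * v := by
  have h1 : gam G 1 = commutator G := Subgroup.top_lowerCentralSeries_one
  have h3 : (closure (Set.range x)).map (Abelianization.of : G →* Abelianization G)
      = closure (Set.range fun i => Abelianization.of (x i)) := by
    rw [MonoidHom.map_closure, ← Set.range_comp]
    rfl
  have h4 : Abelianization.of h ∈ closure (Set.range fun i => Abelianization.of (x i)) := by
    rw [← h3, hx]
    exact ⟨h, Subgroup.mem_top h, rfl⟩
  obtain ⟨n, hn⟩ := Subgroup.mem_closure_range_iff_of_fintype.1 h4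
  refine ⟨n, ((List.ofFn fun i => x i ^ n i).prod)⁻¹ * h, ?_, by group⟩
  have h5 : Abelianization.of (List.ofFn fun i => x i ^ n i).prod = Abelianization.of h := by
    rw [map_list_prod, List.map_ofFn, List.prod_ofFn, hn]
    refine Finset.prod_congr rfl (fun i _ => ?_)
    change Abelianization.of (x i ^ n i) = _
    rw [map_zpow]
  rw [h1]
  exact QuotientGroup.eq.1 h5

variable (h2 : gam G 2 = ⊥)

/-- groups of class at most 2 generated by elements with independent commutators -/
theorem core_indep {d : ℕ} {x : Fin d → G} (hx : closure (Set.range x) = ⊤)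
    (hind : ∀ n : Fin d → Fin d → ℤ, ∑ i, ∑ j, n i j • B h2 (x i) (x j) = 0 →
      ∀ i j, i ≠ j → (n i j - n j i) • B h2 (x i) (x j) = 0)
    {α : MulAut G} (hα : α ∈ AutC G) : ∃ g : G, ∀ t, α t = g * t * g⁻¹ := by
  classical
  obtain ⟨D, hD, hloc, hout⟩ := exists_D h2 hα
  have hform : ∀ (n : Fin d → ℤ) (v : G), v ∈ gam G 1 → ∀ t,
      B h2 ((List.ofFn fun i => x i ^ n i).prod * v) t = ∑ k, n k • B h2 (x k) t := by
    intro n v hv t
    rw [B_left, B_gam h2 hv, add_zero, map_ofFn_add (fun s => B h2 s t) (fun a b => B_left h2 a b t)]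
    refine Finset.sum_congr rfl (fun i _ => ?_)
    exact B_zpow_left h2 (x i) t (n i)
  have sim : ∀ t, ∃ n : Fin d → ℤ, D t = ∑ k, n k • B h2 (x k) t := by
    intro t
    obtain ⟨w, hw⟩ := hloc t
    obtain ⟨n, v, hv, rfl⟩ := decomp_fin hx w
    exact ⟨n, by rw [hw, hform n v hv t]⟩
  have hD1 : D 1 = 0 := by
    have := hD 1 1
    rw [mul_one] at this
    simpa using this
  have hB1 : ∀ a, B h2 a 1 = 0 := by
    intro a
    have := B_right h2 a 1 1
    rw [mul_one] at this
    simpa using this
  choose a ha using fun i => sim (x i)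
  choose b hb using fun k : Fin d => sim (List.ofFn fun i => if i = k then 1 else x i).prod
  have key : ∀ k i, i ≠ k → (a i k - b k k) • B h2 (x k) (x i) = 0 := by
    intro k i hik
    have e1 : D (List.ofFn fun i => if i = k then 1 else x i).prod
        = ∑ i, if i = k then 0 else ∑ l, a i l • B h2 (x l) (x i) := by
      rw [map_ofFn_add D hD]
      refine Finset.sum_congr rfl (fun i _ => ?_)
      by_cases h : i = k
      · rw [if_pos h, if_pos h, hD1]
      · rw [if_neg h, if_neg h, ha]
    have e2 : ∀ l, B h2 (x l) (List.ofFn fun i => if i = k then 1 else x i).prod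
        = ∑ i, if i = k then 0 else B h2 (x l) (x i) := by
      intro l
      rw [map_ofFn_add (B h2 (x l)) (B_right h2 (x l))]
      refine Finset.sum_congr rfl (fun i _ => ?_)
      by_cases h : i = k
      · rw [if_pos h, if_pos h, hB1]
      · rw [if_neg h, if_neg h]
    have e3 := hb k
    rw [e1] at e3
    simp only [e2] at e3
    have h1 := hind (fun l i => if i = k then 0 else a i l - b k l) (by
      rw [Finset.sum_comm]
      rw [← sub_eq_zero] at e3
      rw [← e3]
      have e4 : ∑ l, b k l • (∑ i, if i = k then 0 else B h2 (x l) (x i))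
          = ∑ i, ∑ l, (if i = k then 0 else b k l • B h2 (x l) (x i)) := by
        rw [Finset.sum_comm]
        refine Finset.sum_congr rfl (fun l _ => ?_)
        rw [Finset.smul_sum]
        refine Finset.sum_congr rfl (fun i _ => ?_)
        split_ifs
        · rw [smul_zero]
        · rfl
      rw [e4, ← Finset.sum_sub_distrib]
      refine Finset.sum_congr rfl (fun i _ => ?_)
      by_cases h : i = k
      · simp [h]
      · simp only [if_neg h, sub_smul, Finset.sum_sub_distrib]) k i hik.symm
    simp only [if_neg hik, if_true, sub_zero] at h1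
    exact h1
  refine ⟨(List.ofFn fun i => x i ^ b i i).prod * 1, fun t => ?_⟩
  have hgen : ∀ i, α (x i) = ((List.ofFn fun i => x i ^ b i i).prod * 1) * x i *
      ((List.ofFn fun i => x i ^ b i i).prod * 1)⁻¹ := by
    intro i
    apply hout
    rw [hform (fun i => b i i) 1 (Subgroup.one_mem _), ha]
    refine Finset.sum_congr rfl (fun k _ => ?_)
    by_cases h : i = k
    · rw [← h, B_self, smul_zero, smul_zero]
    · rw [← sub_eq_zero, ← sub_smul]
      exact key k i h
  have h1 : (α.toMonoidHom : G →* G)
      = (MulAut.conj ((List.ofFn fun i => x i ^ b i i).prod * 1)).toMonoidHom := by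
    refine MonoidHom.eq_of_eqOn_dense hx ?_
    rintro _ ⟨i, rfl⟩
    exact hgen i
  exact DFunLike.congr_fun h1 t

/-- the underlying group element -/
def val (t : Additive (Subgroup.center G)) : G := ((Additive.toMul t : Subgroup.center G) : G)

theorem val_add (s t : Additive (Subgroup.center G)) : val (s + t) = val s * val t := rfl

theorem val_zero : val (0 : Additive (Subgroup.center G)) = 1 := rfl

theorem val_inj {s t : Additive (Subgroup.center G)} (h : val s = val t) : s = t := by
  apply Additive.toMul.injective
  exact Subtype.ext h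

/-- `val` as a homomorphism -/
def valHom : Multiplicative (Additive (Subgroup.center G)) →* G where
  toFun t := val (Multiplicative.toAdd t)
  map_one' := rfl
  map_mul' _ _ := rfl

theorem val_zsmul (n : ℤ) (t : Additive (Subgroup.center G)) : val (n • t) = val t ^ n := by
  have h := map_zpow (valHom (G := G)) (Multiplicative.ofAdd t) n
  exact h

theorem val_sum {d : ℕ} (f : Fin d → Additive (Subgroup.center G)) :
    val (∑ i, f i) = (List.ofFn fun i => val (f i)).prod := by
  have h2 : ∀ l : List (Additive (Subgroup.center G)), val l.sum = (l.map val).prod := by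
    intro l
    induction l with
    | nil => rw [List.sum_nil, List.map_nil, List.prod_nil, val_zero]
    | cons b l ih => rw [List.sum_cons, val_add, ih, List.map_cons, List.prod_cons]
  rw [← List.sum_ofFn, h2, List.map_ofFn]
  rfl

theorem val_B (a b : G) : val (B h2 a b) = ⁅a, b⁆ := rfl

/-- a sum over all pairs as a sum over the pairs `i < j` -/
theorem sum_lt {d : ℕ} (x : Fin d → G) (n : Fin d → Fin d → ℤ) :
    ∑ i, ∑ j, n i j • B h2 (x i) (x j)
      = ∑ i, ∑ j, (if i < j then (n i j - n j i) • B h2 (x i) (x j) else 0) := by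
  have e1 : ∑ i, ∑ j, n i j • B h2 (x i) (x j)
      = ∑ i, ∑ j, (if i < j then n i j • B h2 (x i) (x j) else 0)
        + ∑ i, ∑ j, (if j < i then n i j • B h2 (x i) (x j) else 0) := by
    rw [← Finset.sum_add_distrib]
    refine Finset.sum_congr rfl (fun i _ => ?_)
    rw [← Finset.sum_add_distrib]
    refine Finset.sum_congr rfl (fun j _ => ?_)
    rcases lt_trichotomy i j with h | h | h
    · rw [if_pos h, if_neg (lt_asymm h), add_zero]
    · rw [if_neg (by rw [h]; exact lt_irrefl _), if_neg (by rw [h]; exact lt_irrefl _), h, B_self,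
        smul_zero, add_zero]
    · rw [if_neg (lt_asymm h), if_pos h, zero_add]
  rw [e1, Finset.sum_comm (f := fun i j => if j < i then n i j • B h2 (x i) (x j) else 0),
    ← Finset.sum_add_distrib]
  refine Finset.sum_congr rfl (fun i _ => ?_)
  rw [← Finset.sum_add_distrib]
  refine Finset.sum_congr rfl (fun j _ => ?_)
  by_cases h : i < j
  · rw [if_pos h, if_pos h, if_pos h, sub_smul, B_symm h2 (x j) (x i), smul_neg, sub_eq_add_neg]
  · rw [if_neg h, if_neg h, if_neg h, add_zero]

theorem closure_quot_range {k d : ℕ} {x : Fin d → G} (hx : closure (Set.range x) = ⊤) :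
    closure (Set.range fun i => (QuotientGroup.mk (x i) : G ⧸ gam G k)) = ⊤ := by
  have h3 : (closure (Set.range x)).map (QuotientGroup.mk' (gam G k))
      = closure (Set.range fun i => (QuotientGroup.mk (x i) : G ⧸ gam G k)) := by
    rw [MonoidHom.map_closure, ← Set.range_comp]
    rfl
  rw [← h3, hx]
  exact Subgroup.map_top_of_surjective _ (QuotientGroup.mk'_surjective _)

/-- the lower central series of `OutC G` when the commutators of the generators are independent
modulo `γ_3(G)` -/
theorem indep_gen {d : ℕ} {x : Fin d → G} (hx : closure (Set.range x) = ⊤)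
    (hI : ∀ n : Fin d → Fin d → ℤ,
      (List.ofFn fun i => (List.ofFn fun j => if i < j then ⁅x i, x j⁆ ^ n i j else 1).prod).prod
        ∈ gam G 2 → ∀ i j, i < j → ⁅x i, x j⁆ ^ n i j ∈ gam G 2)
    {n c : ℕ} (hc : gam G c = ⊥)
    (hn : c ≤ 2 * (n + 1)) : (⊤ : Subgroup (OutC G)).lowerCentralSeries n = ⊥ := by
  refine outC_lcs_eq_bot (k := 1) (n := n) (c := c) ?_ hc (by omega)
  intro α
  refine of_quot (k := 2) (fun β hβ => ?_) α.2
  refine core_indep (gam_quot_bot 2) (x := fun i => (QuotientGroup.mk (x i) : G ⧸ gam G 2))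
    (closure_quot_range hx) ?_ hβ
  have hval : ∀ (m : Fin d → Fin d → ℤ), val (∑ i, ∑ j, (if i < j then
      m i j • B (gam_quot_bot 2) (QuotientGroup.mk (x i) : G ⧸ gam G 2) (QuotientGroup.mk (x j))
        else 0)) = QuotientGroup.mk' (gam G 2)
      (List.ofFn fun i => (List.ofFn fun j => if i < j then ⁅x i, x j⁆ ^ m i j else 1).prod).prod
      := by
    intro m
    rw [val_sum, map_list_prod, List.map_ofFn]
    congr 2
    funext i
    rw [val_sum]
    change _ = QuotientGroup.mk' (gam G 2) (List.ofFn fun j => if i < j then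
      ⁅x i, x j⁆ ^ m i j else 1).prod
    rw [map_list_prod, List.map_ofFn]
    congr 2
    funext j
    change _ = QuotientGroup.mk' (gam G 2) (if i < j then ⁅x i, x j⁆ ^ m i j else 1)
    by_cases h : i < j
    · rw [if_pos h, if_pos h, val_zsmul, val_B, map_zpow, map_commutatorElement]
      rfl
    · rw [if_neg h, if_neg h, val_zero, map_one]
  have hlt : ∀ (m : Fin d → Fin d → ℤ), ∑ i, ∑ j, (if i < j then
      m i j • B (gam_quot_bot 2) (QuotientGroup.mk (x i) : G ⧸ gam G 2) (QuotientGroup.mk (x j))
        else 0) = 0 → ∀ i j, i < j → m i j • B (gam_quot_bot 2)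
          (QuotientGroup.mk (x i) : G ⧸ gam G 2) (QuotientGroup.mk (x j)) = 0 := by
    intro m hm i j hij
    have h1 := hval m
    rw [hm, val_zero] at h1
    have h3 := hI m ((QuotientGroup.eq_one_iff _).1 h1.symm) i j hij
    apply val_inj
    rw [val_zsmul, val_B, val_zero]
    have h4 := (QuotientGroup.eq_one_iff (⁅x i, x j⁆ ^ m i j)).2 h3
    exact h4
  intro m hm i j hij
  rw [sum_lt] at hm
  have h5 := hlt (fun i j => m i j - m j i) hm
  rcases lt_or_gt_of_ne hij with h | h
  · exact h5 i j h
  · have h6 := h5 j i h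
    rw [B_symm, smul_neg, ← neg_smul, neg_sub] at h6
    exact h6

end Pool.Agent.Helper973_Three
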