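import Mathlib
import Pool.Agent.Helper973_OutC.Base
import Pool.Agent.Helper973_TwoGen.Deep
import Pool.Agent.Helper973_TwoGen.Main
import Pool.Agent.Helper973_Three.Abel
import Pool.Agent.Helper973_Three.Class2

/-!
Adapted generators, and the class of `OutC G` for 3-generated `p`-groups.
-/

set_option autoImplicit false

namespace Pool.Agent.Helper973_Three

open Subgroup Pool.Agent.Helper973_OutC Pool.Agent.Helper973_TwoGen
open scoped commutatorElement

variable {G : Type*} [Group G]

/-- a subgroup criterion for generation -/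
theorem gen_of_mem {x y z x' y' z' : G} (h : closure {x, y, z} = ⊤)
    (hx : x ∈ closure {x', y', z'}) (hy : y ∈ closure {x', y', z'})
    (hz : z ∈ closure {x', y', z'}) : closure {x', y', z'} = ⊤ := by
  rw [eq_top_iff, ← h, Subgroup.closure_le]
  rintro w (rfl | rfl | rfl)
  · exact hx
  · exact hy
  · exact hz

theorem gen_rot {x y z : G} (h : closure {x, y, z} = ⊤) : closure {y, z, x} = ⊤ :=
  gen_of_mem h (Subgroup.subset_closure (by simp)) (Subgroup.subset_closure (by simp))
    (Subgroup.subset_closure (by simp))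

variable (h2 : gam G 2 = ⊥)

/-- last step: two of the three commutators are independent from the first one -/
theorem step_two [Finite G] {x y z : G} (hxyz : closure {x, y, z} = ⊤)
    (hI : ∀ i j k : ℤ, i • B h2 y z + j • B h2 z x + k • B h2 x y = 0 → i • B h2 y z = 0)
    (htot : addOrderOf (B h2 x y) ∣ addOrderOf (B h2 z x) ∨
      addOrderOf (B h2 z x) ∣ addOrderOf (B h2 x y)) :
    ∃ x' y' z' : G, closure {x', y', z'} = ⊤ ∧ Ind (B h2 y' z') (B h2 z' x') (B h2 x' y') := by
  have hx : x ∈ closure {x, y, z} := by rw [hxyz]; exact Subgroup.mem_top _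
  rcases htot with h | h
  · obtain ⟨c, hc⟩ := adapted2 (B h2 z x) (B h2 x y) h
    refine ⟨x, y * z ^ c, z, ?_, ?_⟩
    · have hz : z ∈ closure {x, y * z ^ c, z} := Subgroup.subset_closure (by simp)
      have hy : y * z ^ c ∈ closure {x, y * z ^ c, z} := Subgroup.subset_closure (by simp)
      refine gen_of_mem hxyz (Subgroup.subset_closure (by simp)) ?_ hz
      have h1 := Subgroup.mul_mem _ hy (Subgroup.inv_mem _ (Subgroup.zpow_mem _ hz c))
      rwa [mul_inv_cancel_right] at h1
    · have e1 : B h2 (y * z ^ c) z = B h2 y z := by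
        rw [B_left, B_zpow_left, B_self, smul_zero, add_zero]
      have e3 : B h2 x (y * z ^ c) = B h2 x y - c • B h2 z x := by
        rw [B_right, B_zpow_right, B_symm h2 x z, smul_neg, sub_eq_add_neg]
      rw [e1, e3]
      intro i j k hijk
      have h1 : i • B h2 y z = 0 := by
        refine hI i (j - k * c) k ?_
        rw [← hijk]
        module
      rw [h1, zero_add] at hijk
      have h3 := hc j k hijk
      rw [h3, zero_add] at hijk
      exact ⟨h1, h3, hijk⟩
  · obtain ⟨c, hc⟩ := adapted2 (B h2 x y) (B h2 z x) h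
    refine ⟨x, y, z * y ^ c, ?_, ?_⟩
    · have hy : y ∈ closure {x, y, z * y ^ c} := Subgroup.subset_closure (by simp)
      have hz : z * y ^ c ∈ closure {x, y, z * y ^ c} := Subgroup.subset_closure (by simp)
      refine gen_of_mem hxyz (Subgroup.subset_closure (by simp)) hy ?_
      have h1 := Subgroup.mul_mem _ hz (Subgroup.inv_mem _ (Subgroup.zpow_mem _ hy c))
      rwa [mul_inv_cancel_right] at h1
    · have e1 : B h2 y (z * y ^ c) = B h2 y z := by
        rw [B_right, B_zpow_right, B_self, smul_zero, add_zero]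
      have e2 : B h2 (z * y ^ c) x = B h2 z x - c • B h2 x y := by
        rw [B_left, B_zpow_left, B_symm h2 y x, smul_neg, sub_eq_add_neg]
      rw [e1, e2]
      intro i j k hijk
      have h1 : i • B h2 y z = 0 := by
        refine hI i j (k - j * c) ?_
        rw [← hijk]
        module
      rw [h1, zero_add, add_comm] at hijk
      have h3 := hc k j hijk
      rw [h3, zero_add] at hijk
      exact ⟨h1, hijk, h3⟩

/-- orders of elements of a `p`-group are comparable -/
theorem ord_total {p : ℕ} [Fact p.Prime] (hp : IsPGroup p G)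
    (a b : Additive (Subgroup.center G)) : addOrderOf a ∣ addOrderOf b ∨ addOrderOf b ∣ addOrderOf a := by
  have key : ∀ c : Additive (Subgroup.center G), ∃ k, addOrderOf c = p ^ k := by
    intro c
    obtain ⟨k, hk⟩ := IsPGroup.iff_orderOf.1 (hp.to_subgroup (Subgroup.center G)) (Additive.toMul c)
    exact ⟨k, hk⟩
  obtain ⟨k, hk⟩ := key a
  obtain ⟨l, hl⟩ := key b
  rw [hk, hl]
  rcases le_total k l with h | h
  · exact Or.inl (pow_dvd_pow p h)
  · exact Or.inr (pow_dvd_pow p h)

/-- the case where `[y, z]` has maximal order -/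
theorem of_max {p : ℕ} [Fact p.Prime] [Finite G] (hp : IsPGroup p G) {x y z : G}
    (hxyz : closure {x, y, z} = ⊤)
    (ha : addOrderOf (B h2 z x) ∣ addOrderOf (B h2 y z))
    (hb : addOrderOf (B h2 x y) ∣ addOrderOf (B h2 y z)) :
    ∃ x' y' z' : G, closure {x', y', z'} = ⊤ ∧ Ind (B h2 y' z') (B h2 z' x') (B h2 x' y') := by
  obtain ⟨c, d, hcd⟩ := adapted3 (B h2 y z) (B h2 z x) (B h2 x y) ha hb
  have e2 : B h2 z (x * y ^ c * z ^ d) = B h2 z x - c • B h2 y z := by
    rw [B_right, B_right, B_zpow_right, B_zpow_right, B_self, smul_zero, add_zero,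
      B_symm h2 z y, smul_neg, sub_eq_add_neg]
  have e3 : B h2 (x * y ^ c * z ^ d) y = B h2 x y - d • B h2 y z := by
    rw [B_left, B_left, B_zpow_left, B_zpow_left, B_self, smul_zero, add_zero,
      B_symm h2 z y, smul_neg, sub_eq_add_neg]
  refine step_two h2 (x := x * y ^ c * z ^ d) (y := y) (z := z) ?_ ?_ (ord_total hp _ _)
  · have hy : y ∈ closure {x * y ^ c * z ^ d, y, z} := Subgroup.subset_closure (by simp)
    have hz : z ∈ closure {x * y ^ c * z ^ d, y, z} := Subgroup.subset_closure (by simp)
    have hx : x * y ^ c * z ^ d ∈ closure {x * y ^ c * z ^ d, y, z} :=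
      Subgroup.subset_closure (by simp)
    refine gen_of_mem hxyz ?_ hy hz
    have h1 := Subgroup.mul_mem _ (Subgroup.mul_mem _ hx
      (Subgroup.inv_mem _ (Subgroup.zpow_mem _ hz d))) (Subgroup.inv_mem _ (Subgroup.zpow_mem _ hy c))
    rwa [mul_inv_cancel_right, mul_inv_cancel_right] at h1
  · intro i j k h
    rw [e2, e3] at h
    exact hcd i j k h

include h2 in
/-- class-preserving automorphisms of 3-generated `p`-groups of class at most 2 are inner -/
theorem class2 {p : ℕ} [Fact p.Prime] [Finite G] (hp : IsPGroup p G) {x y z : G}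
    (hxyz : closure {x, y, z} = ⊤) {α : MulAut G} (hα : α ∈ AutC G) :
    ∃ g : G, ∀ t, α t = g * t * g⁻¹ := by
  have hgen : ∃ x' y' z' : G, closure {x', y', z'} = ⊤ ∧
      Ind (B h2 y' z') (B h2 z' x') (B h2 x' y') := by
    have hr := gen_rot hxyz
    have hrr := gen_rot hr
    rcases ord_total hp (B h2 z x) (B h2 y z) with h1 | h1
    · rcases ord_total hp (B h2 x y) (B h2 y z) with h3 | h3
      · exact of_max h2 hp hxyz h1 h3
      · exact of_max h2 hp hrr h3 (h1.trans h3)
    · rcases ord_total hp (B h2 x y) (B h2 z x) with h3 | h3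
      · exact of_max h2 hp hr h3 h1
      · exact of_max h2 hp hrr (h1.trans h3) h3
  obtain ⟨x', y', z', hg, hI⟩ := hgen
  exact core_ind h2 hg hI hα

theorem closure_quot3 {k : ℕ} {x y z : G} (hxyz : closure {x, y, z} = ⊤) :
    closure {(QuotientGroup.mk x : G ⧸ gam G k), QuotientGroup.mk y, QuotientGroup.mk z} = ⊤ := by
  have h3 : (closure {x, y, z}).map (QuotientGroup.mk' (gam G k))
      = closure {(QuotientGroup.mk x : G ⧸ gam G k), QuotientGroup.mk y, QuotientGroup.mk z} := by
    rw [MonoidHom.map_closure, Set.image_insert_eq, Set.image_pair]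
    rfl
  rw [← h3, hxyz]
  exact Subgroup.map_top_of_surjective _ (QuotientGroup.mk'_surjective _)

/-- the lower central series of `OutC G` for a 3-generated `p`-group -/
theorem three_gen {p : ℕ} [Fact p.Prime] [Finite G] (hp : IsPGroup p G)
    {x y z : G} (hxyz : closure {x, y, z} = ⊤) {n c : ℕ} (hc : gam G c = ⊥)
    (hn : c ≤ 2 * (n + 1)) : (⊤ : Subgroup (OutC G)).lowerCentralSeries n = ⊥ := by
  refine outC_lcs_eq_bot (k := 1) (n := n) (c := c) ?_ hc (by omega)
  intro α
  exact of_quot (k := 2) (fun β hβ =>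
    class2 (gam_quot_bot 2) (hp.to_quotient (gam G 2)) (closure_quot3 hxyz) hβ) α.2

end Pool.Agent.Helper973_Three
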